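import Pool.Agent.Helper25_RS2.Hvy

/-!
# MP_ff6f12_co, squad RS2, module FFM: a root which is near in some colour in every `H`-free
colouring
-/

set_option autoImplicit false

open SimpleGraph

namespace Pool.Agent.RS81.H25

open Pool.Agent.RS80 Pool.Agent.RS81

/-- A graph `F` that arrows `B` but not `pendL B ℓ`. -/
theorem exists_arrow_of_not_equiv {V : Type} [Finite V] (B : SimpleGraph V) (ℓ : V → ℕ)
    (h : ¬ RamseyEquiv B (pendL B ℓ)) :
    ∃ (n : ℕ) (F : SimpleGraph (Fin n)), Arrows F B ∧ InC (pendL B ℓ) F := by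
  have hle : ∀ {n : ℕ} (R : SimpleGraph (Fin n)), pendL B ℓ ⊑ R → B ⊑ R :=
    fun R hR => (core_isContained B ℓ).trans hR
  unfold RamseyEquiv at h
  push Not at h
  obtain ⟨n, F, h⟩ := h
  have h2 : Arrows F (pendL B ℓ) → Arrows F B := by
    intro h3 R hR
    exact (h3 R hR).imp (hle R) (hle _)
  have h4 : Arrows F B ∧ ¬ Arrows F (pendL B ℓ) := by
    rcases h with h | h
    · exact h
    · exact absurd (h2 h.2) h.1
  refine ⟨n, F, h4.1, ?_⟩
  have h5 := h4.2
  unfold Arrows at h5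
  push Not at h5
  obtain ⟨R, hR, h6, h7⟩ := h5
  exact ⟨R, F \ R, sup_sdiff_cancel_right hR, fun ⟨f⟩ => h6.false f, fun ⟨f⟩ => h7.false f⟩

/-- The private neighbours of `ι x`. -/
def priv {K0 K : Type} (R : SimpleGraph K) (ι : K0 → K) (own : K → K0) (x : K0) : Set K :=
  {y | y ∉ Set.range ι ∧ own y = x ∧ R.Adj (ι x) y}

/-- The induction. -/
theorem ffm_step (hg : GluStmt) {V : Type} [Finite V] (B : SimpleGraph V) (ℓ : V → ℕ) (m : ℕ)
    (hB : TwoConn B) (hm : ∀ v, ℓ v ≤ m) {K0 : Type} [Finite K0] (F : SimpleGraph K0)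
    (hF : InC (pendL B ℓ) F) {L : Type} [Finite L] (M : SimpleGraph L) (r : L)
    (hM : ∀ R S, Good (pendL B ℓ) M R S →
      m ≤ (R.neighborSet r).ncard ∧ m ≤ (S.neighborSet r).ncard)
    (hML : ∃ R S, Good (pendL B ℓ) M R S ∧ ¬ Near B ℓ m R r ∧ ¬ Near B ℓ m S r)
    (hno : ¬ ∃ (L : Type) (_ : Finite L) (Q : SimpleGraph L) (t : L), InC (pendL B ℓ) Q ∧
      ∀ R S, Good (pendL B ℓ) Q R S → Near B ℓ m R t ∨ Near B ℓ m S t) (X : Finset K0) :
    ∃ (K : Type) (_ : Finite K) (G : SimpleGraph K) (ι : K0 → K) (own : K → K0),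
      Function.Injective ι ∧ F ≤ G.comap ι ∧ InC (pendL B ℓ) G ∧
      ∀ R S, Good (pendL B ℓ) G R S → ∀ x ∈ X,
        m ≤ (priv R ι own x).ncard ∧ m ≤ (priv S ι own x).ncard := by
  classical
  induction X using Finset.induction_on with
  | empty =>
    exact ⟨K0, inferInstance, F, id, id, Function.injective_id, le_rfl, hF,
      fun R S _ x hx => absurd hx (Finset.notMem_empty x)⟩
  | insert v X hv ih =>
    obtain ⟨K, hK, G, ι, own, hι, hFG, hG, hX⟩ := ih
    have hno1 : ∃ R S, Good (pendL B ℓ) G R S ∧ ¬ Near B ℓ m R (ι v) ∧ ¬ Near B ℓ m S (ι v) := by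
      by_contra hcon
      push Not at hcon
      exact hno ⟨K, hK, G, ι v, hG, fun R S h => by
        by_cases h1 : Near B ℓ m R (ι v)
        · exact Or.inl h1
        · exact Or.inr (hcon R S h h1)⟩
    obtain ⟨R1, S1, ⟨g1, g2, g3⟩, g4, g5⟩ := hno1
    obtain ⟨R2, S2, ⟨k1, k2, k3⟩, k4, k5⟩ := hML
    refine ⟨K ⊕ L, inferInstance, glue G (ι v) M r, fun x => Sum.inl (ι x),
      Sum.elim own (fun _ => v), Sum.inl_injective.comp hι, ?_, ?_, ?_⟩
    · intro a b hab
      exact hFG hab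
    · refine ⟨glue R1 (ι v) R2 r, glue S1 (ι v) S2 r, ?_, ?_, ?_⟩
      · rw [glue_sup, g1, k1]
      · exact (glue_light hg hB hm g2 k2 g4 k4).1
      · exact (glue_light hg hB hm g3 k3 g5 k5).1
    · intro R S hRS x hx
      rcases Finset.mem_insert.1 hx with rfl | hx
      · have h1 := good_comap hRS (jmap_injective (ι x) r)
        rw [glue_comap_jmap] at h1
        have key : ∀ R : SimpleGraph (K ⊕ L), m ≤ ((R.comap (jmap (ι x) r)).neighborSet r).ncard →
            m ≤ (priv R (fun x => Sum.inl (ι x)) (Sum.elim own (fun _ => x)) x).ncard := by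
          intro R hR
          refine hR.trans ?_
          have h3 : jmap (ι x) r '' ((R.comap (jmap (ι x) r)).neighborSet r) ⊆
              priv R (fun x => Sum.inl (ι x)) (Sum.elim own (fun _ => x)) x := by
            rintro _ ⟨y, hy, rfl⟩
            have hyr : y ≠ r := fun h => (SimpleGraph.irrefl _) (h ▸ hy)
            rw [mem_neighborSet, comap_adj, jmap_root, jmap_ne _ hyr] at hy
            rw [jmap_ne _ hyr]
            exact ⟨fun ⟨w, hw⟩ => by simp at hw, rfl, hy⟩
          have h4 := Set.ncard_le_ncard h3 (Set.toFinite _)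
          rwa [Set.ncard_image_of_injective _ (jmap_injective (ι x) r)] at h4
        obtain ⟨h5, h6⟩ := hM _ _ h1
        exact ⟨key R h5, key S h6⟩
      · have h1 := good_comap hRS (j := (Sum.inl : K → K ⊕ L)) Sum.inl_injective
        rw [glue_comap_inl] at h1
        have key : ∀ R : SimpleGraph (K ⊕ L), m ≤ (priv (R.comap Sum.inl) ι own x).ncard →
            m ≤ (priv R (fun x => Sum.inl (ι x)) (Sum.elim own (fun _ => v)) x).ncard := by
          intro R hR
          refine hR.trans ?_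
          have h3 : Sum.inl '' (priv (R.comap Sum.inl) ι own x) ⊆
              priv R (fun x => Sum.inl (ι x)) (Sum.elim own (fun _ => v)) x := by
            rintro _ ⟨y, ⟨hy1, hy2, hy3⟩, rfl⟩
            exact ⟨fun ⟨w, hw⟩ => hy1 ⟨w, Sum.inl_injective hw⟩, hy2, hy3⟩
          have h4 := Set.ncard_le_ncard h3 (Set.toFinite _)
          rwa [Set.ncard_image_of_injective _ Sum.inl_injective] at h4
        obtain ⟨h5, h6⟩ := hX _ _ h1 x hx
        exact ⟨key R h5, key S h6⟩

/-- A copy of `B` with private extra neighbours contains `pendL B ℓ`. -/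
theorem pendL_of_priv {V K0 K : Type} [Finite K] (B : SimpleGraph V) (ℓ : V → ℕ) (m : ℕ)
    (hm : ∀ v, ℓ v ≤ m) (R : SimpleGraph K) (ι : K0 → K) (own : K → K0)
    (hι : Function.Injective ι) (h : ∀ x, m ≤ (priv R ι own x).ncard)
    (hB : B ⊑ R.comap ι) : pendL B ℓ ⊑ R := by
  classical
  obtain ⟨f⟩ := hB
  have hfin : ∀ x, (priv R ι own x).Finite := fun x => Set.toFinite _
  refine pendL_of_private (φ := fun v => ι (f v)) (fun a b hab => f.injective (hι hab))
    (fun u v huv => f.toHom.map_rel huv) (fun v => (hfin (f v)).toFinset) ?_ ?_ ?_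
  · intro v
    rw [← Set.ncard_eq_toFinset_card]
    exact (hm v).trans (h (f v))
  · intro v a ha
    rw [Set.Finite.mem_toFinset] at ha
    obtain ⟨h1, h2, h3⟩ := ha
    exact ⟨h3, fun w hw => h1 ⟨f w, hw.symm⟩⟩
  · intro u v huv
    rw [Finset.disjoint_left]
    intro a ha hb
    rw [Set.Finite.mem_toFinset] at ha hb
    exact huv (f.injective (ha.2.1.symm.trans hb.2.1))

theorem ffm (hh : HvyStmt) (hg : GluStmt) : FfmStmt := by
  intro V _ B ℓ m hB hc hm hne
  by_contra hno
  obtain ⟨L, hL, M, r, hM, hML⟩ := hh V B ℓ m hB hc hm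
  obtain ⟨n, F, hFB, hF⟩ := exists_arrow_of_not_equiv B ℓ hne
  obtain ⟨K, hK, G, ι, own, hι, hFG, ⟨R, S, hRS⟩, hX⟩ :=
    ffm_step hg B ℓ m hB hm F hF M r hM hML hno Finset.univ
  have h1 := hX R S hRS
  have h2 : F ⊓ R.comap ι ≤ F := inf_le_left
  obtain ⟨hsup, hR, hS⟩ := hRS
  rcases hFB _ h2 with h3 | h3
  · refine hR (pendL_of_priv B ℓ m hm R ι own hι (fun x => (h1 x (Finset.mem_univ x)).1) ?_)
    exact h3.trans (IsContained.of_le inf_le_right)
  · refine hS (pendL_of_priv B ℓ m hm S ι own hι (fun x => (h1 x (Finset.mem_univ x)).2) ?_)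
    refine h3.trans (IsContained.of_le ?_)
    intro a b hab
    rw [sdiff_adj] at hab
    have h4 : G.Adj (ι a) (ι b) := hFG hab.1
    rw [← hsup, sup_adj] at h4
    rcases h4 with h4 | h4
    · exact absurd ⟨hab.1, h4⟩ hab.2
    · exact h4

end Pool.Agent.RS81.H25
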