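import Pool.Agent.Helper80_RS2.Stmts

/-!
# MP_ff6f12_co, squad RS2, module HVY: the heavy light gadget
-/

set_option autoImplicit false

open SimpleGraph

namespace Pool.Agent.RS81.H25

open Pool.Agent.RS80 Pool.Agent.RS81

/-- `k`-near implies `m`-near when all `ℓ v ≤ m` (the deficit is truncated). -/
theorem Near.cap {V K : Type} {B : SimpleGraph V} {ℓ : V → ℕ} {k m : ℕ} {G : SimpleGraph K}
    {v : K} (h : Near B ℓ k G v) (hm : ∀ v, ℓ v ≤ m) : Near B ℓ m G v := by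
  rw [near_iff] at h ⊢
  obtain ⟨z, hz, φ, h, hv⟩ := h
  refine ⟨z, hz, φ, h.mono_ell fun w => ?_, hv⟩
  unfold low
  split_ifs
  · have := hm w
    omega
  · exact le_rfl

theorem pendL_exists_adj {V : Type} {B : SimpleGraph V} (hB : TwoConn B) (ℓ : V → ℕ) :
    ∃ x y, (pendL B ℓ).Adj x y := by
  have h1 : Nonempty V := hB.2.1.nonempty
  obtain ⟨v⟩ := h1
  obtain ⟨u, hu⟩ := hB.exists_adj v
  exact ⟨Sum.inl v, Sum.inl u, hu⟩

theorem free_bot {V K : Type} {B : SimpleGraph V} (hB : TwoConn B) (ℓ : V → ℕ) :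
    (pendL B ℓ).Free (⊥ : SimpleGraph K) := by
  intro ⟨f⟩
  obtain ⟨x, y, hxy⟩ := pendL_exists_adj hB ℓ
  exact f.toHom.map_rel hxy

/-- Glueing two light covers. -/
theorem glue_light (hg : GluStmt) {V : Type} [Finite V] {B : SimpleGraph V} {ℓ : V → ℕ} {m : ℕ}
    (hB : TwoConn B) (hm : ∀ v, ℓ v ≤ m) {K L : Type} [Finite K] [Finite L]
    {R1 : SimpleGraph K} {k : K} {R2 : SimpleGraph L} {r : L}
    (h1 : (pendL B ℓ).Free R1) (h2 : (pendL B ℓ).Free R2)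
    (h3 : ¬ Near B ℓ m R1 k) (h4 : ¬ Near B ℓ m R2 r) :
    (pendL B ℓ).Free (glue R1 k R2 r) ∧ ¬ Near B ℓ m (glue R1 k R2 r) (Sum.inl k) := by
  obtain ⟨ha, hb⟩ := hg V B ℓ hB K L R1 k R2 r
  exact ⟨ha h1 h2 (fun h => h3 (Near.cap h hm)) (fun h => h4 (Near.cap h hm)), hb m hm h3 h4⟩

theorem ncard_glue {K L : Type} [Finite K] [Finite L] (R : SimpleGraph (K ⊕ L)) (k : K) (r : L)
    (j : ℕ) (h1 : j ≤ ((R.comap Sum.inl).neighborSet k).ncard)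
    (h2 : ∃ x, (R.comap (jmap k r)).Adj r x) : j + 1 ≤ (R.neighborSet (Sum.inl k)).ncard := by
  obtain ⟨x, hx⟩ := h2
  have hxr : x ≠ r := fun h => (SimpleGraph.irrefl _) (h ▸ hx)
  rw [comap_adj, jmap_root, jmap_ne _ hxr] at hx
  have h3 : insert (Sum.inr x) (Sum.inl '' ((R.comap Sum.inl).neighborSet k)) ⊆
      R.neighborSet (Sum.inl k) := by
    rintro y (rfl | ⟨a, ha, rfl⟩)
    · exact hx
    · exact ha
  have h4 := Set.ncard_le_ncard h3 (Set.toFinite _)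
  rw [Set.ncard_insert_of_notMem (by rintro ⟨a, -, ha⟩; simp at ha) (Set.toFinite _),
    Set.ncard_image_of_injective _ Sum.inl_injective] at h4
  omega

theorem hvy_step (hg : GluStmt) {V : Type} [Finite V] {B : SimpleGraph V} {ℓ : V → ℕ} {m : ℕ}
    (hB : TwoConn B) (hm : ∀ v, ℓ v ≤ m) {L : Type} [Finite L] (M : SimpleGraph L) (r : L)
    (hM : ∀ R S, Good (pendL B ℓ) M R S → (∃ x, R.Adj r x) ∧ (∃ y, S.Adj r y))
    (hL : ∃ R S, Good (pendL B ℓ) M R S ∧ ¬ Near B ℓ m R r ∧ ¬ Near B ℓ m S r) (j : ℕ) :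
    ∃ (K : Type) (_ : Finite K) (N : SimpleGraph K) (k : K),
      (∀ R S, Good (pendL B ℓ) N R S →
        j ≤ (R.neighborSet k).ncard ∧ j ≤ (S.neighborSet k).ncard) ∧
      ∃ R S, Good (pendL B ℓ) N R S ∧ ¬ Near B ℓ m R k ∧ ¬ Near B ℓ m S k := by
  induction j with
  | zero =>
    refine ⟨Unit, inferInstance, ⊥, (), fun R S _ => ⟨Nat.zero_le _, Nat.zero_le _⟩, ⊥, ⊥,
      ⟨by simp, free_bot hB ℓ, free_bot hB ℓ⟩, ?_, ?_⟩
    · intro h
      obtain ⟨w, hw⟩ := h.exists_adj hB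
      exact hw
    · intro h
      obtain ⟨w, hw⟩ := h.exists_adj hB
      exact hw
  | succ j ih =>
    obtain ⟨K, hK, N, k, hN, R1, S1, ⟨g1, g2, g3⟩, g4, g5⟩ := ih
    obtain ⟨R2, S2, ⟨k1, k2, k3⟩, k4, k5⟩ := hL
    obtain ⟨a1, a2⟩ := glue_light hg hB hm g2 k2 g4 k4
    obtain ⟨b1, b2⟩ := glue_light hg hB hm g3 k3 g5 k5
    refine ⟨K ⊕ L, inferInstance, glue N k M r, Sum.inl k, ?_,
      glue R1 k R2 r, glue S1 k S2 r, ⟨?_, a1, b1⟩, a2, b2⟩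
    · intro R S hRS
      have h1 := good_comap hRS (j := (Sum.inl : K → K ⊕ L)) Sum.inl_injective
      rw [glue_comap_inl] at h1
      have h2 := good_comap hRS (jmap_injective k r)
      rw [glue_comap_jmap] at h2
      obtain ⟨c1, c2⟩ := hN _ _ h1
      obtain ⟨d1, d2⟩ := hM _ _ h2
      exact ⟨ncard_glue R k r j c1 d1, ncard_glue S k r j c2 d2⟩
    · rw [glue_sup, g1, k1]

theorem hvy (hmix : MixStmt) (hg : GluStmt) : HvyStmt := by
  intro V _ B ℓ m hB hc hm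
  obtain ⟨L, hL, M, r, hM, R, S, hRS, h1, h2⟩ :=
    hmix V B ℓ hB hc (Nat.card (V ⊕ Σ v, Fin (ℓ v)))
  exact hvy_step hg hB hm M r hM
    ⟨R, S, hRS, not_near_of_deg hRS.2.1 h1, not_near_of_deg hRS.2.2 h2⟩ m

end Pool.Agent.RS81.H25
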