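import Pool.Agent.Helper25_RS2.Hvy

/-!
# MP_ff6f12_co, squad RS2, module RED: the one-sided gadget
-/

set_option autoImplicit false

open SimpleGraph

namespace Pool.Agent.RS81.H25

open Pool.Agent.RS80 Pool.Agent.RS81

/-- `Q` with `n` pendant vertices at `t`. -/
def pen {L : Type} (Q : SimpleGraph L) (t : L) (n : ℕ) : SimpleGraph (L ⊕ Fin n) where
  Adj x y := match x, y with
    | .inl a, .inl b => Q.Adj a b
    | .inl a, .inr _ => a = t
    | .inr _, .inl a => a = t
    | .inr _, .inr _ => False
  symm := ⟨by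
    rintro (a | x) (b | y) h
    · exact Q.symm.symm _ _ h
    · exact h
    · exact h
    · exact h⟩
  loopless := ⟨by
    rintro (a | x) h
    · exact Q.loopless.irrefl a h
    · exact h⟩

theorem pen_comap {L : Type} (Q : SimpleGraph L) (t : L) (n : ℕ) :
    (pen Q t n).comap Sum.inl = Q := by
  ext a b
  exact Iff.rfl

theorem inC_pen {W : Type} {H : SimpleGraph W} (hp : PClosed H) {L : Type} [Finite L]
    {Q : SimpleGraph L} (t : L) (hQ : InC H Q) (n : ℕ) : InC H (pen Q t n) := by
  induction n with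
  | zero =>
    refine Pool.Agent.RS81.InC.restr hQ (Sum.elim id (fun x => x.elim0)) ?_ ?_
    · rintro (a | a) (b | b) hab
      · exact congrArg _ hab
      · exact b.elim0
      · exact a.elim0
      · exact a.elim0
    · rintro (a | a) (b | b) hab
      · exact hab
      · exact b.elim0
      · exact a.elim0
      · exact a.elim0
  | succ n ih =>
    have h1 := hp (L ⊕ Fin n) (pen Q t n) (Sum.inl t) ih
    refine Pool.Agent.RS81.InC.restr h1 (Sum.elim (fun a => some (Sum.inl a))
      (Fin.lastCases none (fun x => some (Sum.inr x)))) ?_ ?_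
    · rintro (a | a) (b | b) hab
      · simpa using hab
      · induction b using Fin.lastCases with
        | last => simp at hab
        | cast b => simp at hab
      · induction a using Fin.lastCases with
        | last => simp at hab
        | cast a => simp at hab
      · induction a using Fin.lastCases with
        | last =>
          induction b using Fin.lastCases with
          | last => rfl
          | cast b => simp at hab
        | cast a =>
          induction b using Fin.lastCases with
          | last => simp at hab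
          | cast b => simpa using hab
    · rintro (a | a) (b | b) hab
      · exact hab
      · change a = t at hab
        subst hab
        induction b using Fin.lastCases with
        | last => simp [cone]
        | cast b => simp [cone, pen]
      · change b = t at hab
        subst hab
        induction a using Fin.lastCases with
        | last => simp [cone]
        | cast a => simp [cone, pen]
      · exact hab.elim

/-- Vertices outside the range of `i` hang at `i t`: they can be ignored. -/
theorem near_restrict {V : Type} {B : SimpleGraph V} (hB : TwoConn B) {ℓ : V → ℕ} {k m : ℕ}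
    (hm : ∀ v, ℓ v ≤ m) {K K' : Type} {S : SimpleGraph K'} (i : K → K')
    (hi : Function.Injective i) (t : K) (hout : ∀ x, (∀ a, i a ≠ x) → ∀ y, S.Adj x y → y = i t)
    (h : Near B ℓ k S (i t)) : Near B ℓ m (S.comap i) t := by
  classical
  have h0 := Near.cap h hm
  rw [near_iff] at h0 ⊢
  obtain ⟨z, hz, φ, ⟨h1, h2, A, h3, h4, h5⟩, hv⟩ := h0
  have hr : ∀ w, ∃ a, i a = φ w := by
    intro w
    by_contra hcon
    push Not at hcon
    obtain ⟨u, hu⟩ := hB.exists_adj w
    obtain ⟨u', hne, hu'⟩ := hB.exists_adj_ne w u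
    have e1 := hout (φ w) hcon (φ u) (h2 _ _ hu)
    have e2 := hout (φ w) hcon (φ u') (h2 _ _ hu')
    exact hne (h1 (e2.trans e1.symm))
  choose ψ hψ using hr
  refine ⟨z, hz, ψ, ⟨?_, ?_, fun v => if v = z then ∅ else (A v).preimage i hi.injOn,
    ?_, ?_, ?_⟩, hi ((hψ z).trans hv)⟩
  · intro a b hab
    apply h1
    rw [← hψ a, ← hψ b, hab]
  · intro u v huv
    rw [comap_adj, hψ, hψ]
    exact h2 u v huv
  · intro v
    by_cases hvz : v = z
    · subst hvz
      rw [low_self]
      have := hm v
      simp only [if_true, Finset.card_empty]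
      omega
    · simp only [if_neg hvz]
      have hsub : A v = ((A v).preimage i hi.injOn).image i := by
        ext a
        rw [Finset.mem_image]
        constructor
        · intro ha
          by_cases hex : ∃ b, i b = a
          · obtain ⟨b, rfl⟩ := hex
            exact ⟨b, by rw [Finset.mem_preimage]; exact ha, rfl⟩
          · push Not at hex
            have e1 := hout a hex (φ v) (h4 v a ha).1.symm
            exact absurd (h1 (e1.trans hv.symm)) hvz
        · rintro ⟨b, hb, rfl⟩
          rwa [Finset.mem_preimage] at hb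
      refine (h3 v).trans ?_
      exact (le_of_eq (congrArg Finset.card hsub)).trans Finset.card_image_le
  · intro v a ha
    by_cases hvz : v = z
    · simp [hvz] at ha
    · simp only [if_neg hvz, Finset.mem_preimage] at ha
      obtain ⟨e1, e2⟩ := h4 v _ ha
      refine ⟨?_, fun w hw => e2 w ?_⟩
      · rw [comap_adj, hψ]
        exact e1
      · rw [hw, hψ]
  · intro u v huv
    rw [Finset.disjoint_left]
    intro a ha hb
    by_cases hu : u = z
    · simp [hu] at ha
    · by_cases hv' : v = z
      · simp [hv'] at hb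
      · simp only [if_neg hu, if_neg hv', Finset.mem_preimage] at ha hb
        exact (Finset.disjoint_left.1 (h5 u v huv)) ha hb

/-- In a colouring in which all pendant edges have the second colour only, the root is not
`m`-near in the second colour. -/
theorem not_near_pen {V : Type} {B : SimpleGraph V} (hB : TwoConn B) {ℓ : V → ℕ} {m k n : ℕ}
    (hm : ∀ v, ℓ v ≤ m) (hmn : m ≤ n) {L : Type} {Q : SimpleGraph L} {t : L}
    {R S : SimpleGraph (L ⊕ Fin n)} (hg : Good (pendL B ℓ) (pen Q t n) R S)
    (hR : ∀ x, ¬ R.Adj (Sum.inl t) (Sum.inr x)) : ¬ Near B ℓ k S (Sum.inl t) := by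
  classical
  intro h
  obtain ⟨h1, h2, h3⟩ := hg
  have hS : ∀ x, S.Adj (Sum.inl t) (Sum.inr x) := by
    intro x
    have h4 : (pen Q t n).Adj (Sum.inl t) (Sum.inr x) := rfl
    rw [← h1, sup_adj] at h4
    rcases h4 with h4 | h4
    · exact absurd h4 (hR x)
    · exact h4
  have h5 : Near B ℓ m (S.comap Sum.inl) t := by
    refine near_restrict hB hm (K' := L ⊕ Fin n) Sum.inl Sum.inl_injective t ?_ h
    rintro (a | x) hx y hy
    · exact absurd rfl (hx a)
    · have h6 : (pen Q t n).Adj (Sum.inr x) y := by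
        rw [← h1, sup_adj]
        exact Or.inr hy
      rcases y with b | y
      · exact congrArg _ h6
      · exact h6.elim
  have h6 : Near B ℓ 0 S (Sum.inl t) := by
    refine Near.ext (fun v => Pool.Agent.RS81.TwoConn.adj' hB v) (G := S.comap Sum.inl) Sum.inl Sum.inl_injective
      (fun a b hab => hab) h5 (Finset.univ.map ⟨Sum.inr, Sum.inr_injective⟩) ?_ ?_ ?_
    · intro e he
      rw [Finset.mem_map] at he
      obtain ⟨x, -, rfl⟩ := he
      exact hS x
    · intro e he a hea
      rw [Finset.mem_map] at he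
      obtain ⟨x, -, rfl⟩ := he
      simp at hea
    · rw [Finset.card_map, Finset.card_univ, Fintype.card_fin]
      omega
  exact h3 h6.zero

theorem good_swap {W K : Type} {H : SimpleGraph W} {G R S : SimpleGraph K} (h : Good H G R S) :
    Good H G S R := by
  obtain ⟨h1, h2, h3⟩ := h
  exact ⟨by rw [sup_comm]; exact h1, h3, h2⟩

/-- `(Q, t)` is a root which is `k`-near in some colour, in every `H`-free colouring. -/
def FF {V : Type} (B : SimpleGraph V) (ℓ : V → ℕ) (k : ℕ) : Prop :=
  ∃ (L : Type) (_ : Finite L) (Q : SimpleGraph L) (t : L), InC (pendL B ℓ) Q ∧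
    ∀ R S, Good (pendL B ℓ) Q R S → Near B ℓ k R t ∨ Near B ℓ k S t

/-- One colouring step, `R` is the near colour. -/
theorem red_glue (hg : GluStmt) {V : Type} [Finite V] {B : SimpleGraph V} {ℓ : V → ℕ} {m k : ℕ}
    (hB : TwoConn B) (hm : ∀ v, ℓ v ≤ m) (hk : 1 ≤ k)
    {L Y0 : Type} [Finite L] [Finite Y0] {Q : SimpleGraph L} {t : L} {Y : SimpleGraph Y0} {r : Y0}
    (hY : ∃ R S, Good (pendL B ℓ) Y R S ∧ (R.neighborSet r).ncard = 1 ∧
        ¬ Near B ℓ m R r ∧ ¬ Near B ℓ m S r)
    {R S : SimpleGraph (L ⊕ Fin m)} (hRS : Good (pendL B ℓ) (pen Q t m) R S)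
    (h1 : ¬ Near B ℓ k R (Sum.inl t)) (h2 : Near B ℓ (k + 1) (R.comap Sum.inl) t) :
    InC (pendL B ℓ) (glue (pen Q t m) (Sum.inl t) Y r) := by
  classical
  have hR : ∀ x, ¬ R.Adj (Sum.inl t) (Sum.inr x) := by
    intro x hx
    refine h1 (Near.ext (fun v => Pool.Agent.RS81.TwoConn.adj' hB v) (G := R.comap Sum.inl) Sum.inl Sum.inl_injective
      (fun a b hab => hab) h2 {Sum.inr x} ?_ ?_ ?_)
    · intro e he
      rw [Finset.mem_singleton] at he
      rw [he]
      exact hx
    · intro e he a hea
      rw [Finset.mem_singleton] at he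
      rw [he] at hea
      simp at hea
    · rw [Finset.card_singleton]
  have hS : ¬ Near B ℓ m S (Sum.inl t) := not_near_pen hB hm le_rfl hRS hR
  obtain ⟨R2, S2, ⟨k1, k2, k3⟩, k4, k5, k6⟩ := hY
  obtain ⟨g1, g2, g3⟩ := hRS
  refine ⟨glue R (Sum.inl t) R2 r, glue S (Sum.inl t) S2 r, ?_, ?_, ?_⟩
  · rw [glue_sup, g1, k1]
  · refine (hg V B ℓ hB _ _ R (Sum.inl t) R2 r).1 g2 k2 ?_ (fun h => k5 (Near.cap h hm))
    rw [k4]
    exact fun h => h1 (h.mono_k hk)
  · exact (glue_light hg hB hm g3 k3 hS k6).1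

/-- In a colouring of the glued graph the root is `k`-near in the colour `R`. -/
theorem red_near {V : Type} [Finite V] {B : SimpleGraph V} {ℓ : V → ℕ} {m k : ℕ}
    (hB : TwoConn B) {L Y0 : Type} [Finite L] [Finite Y0] {Q : SimpleGraph L} {t : L}
    {Y : SimpleGraph Y0} {r : Y0} {R S : SimpleGraph ((L ⊕ Fin m) ⊕ Y0)}
    (hRS : Good (pendL B ℓ) (glue (pen Q t m) (Sum.inl t) Y r) R S)
    (hYR : (∃ x, (R.comap (jmap (Sum.inl t : L ⊕ Fin m) r)).Adj r x) ∨
      Near B ℓ m (S.comap (jmap (Sum.inl t : L ⊕ Fin m) r)) r)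
    (h2 : Near B ℓ (k + 1) ((R.comap Sum.inl).comap Sum.inl) t) :
    Near B ℓ k R (Sum.inl (Sum.inl t)) := by
  classical
  by_contra hcon
  have key : ∀ e, R.Adj (Sum.inl (Sum.inl t)) e → (∀ a : L, Sum.inl (Sum.inl a) ≠ e) → False := by
    intro e he hne
    refine hcon (Near.ext (fun v => Pool.Agent.RS81.TwoConn.adj' hB v) (G := (R.comap Sum.inl).comap Sum.inl)
      (fun a => Sum.inl (Sum.inl a)) (Sum.inl_injective.comp Sum.inl_injective)
      (fun a b hab => hab) h2 {e} ?_ ?_ ?_)
    · intro e' he'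
      rw [Finset.mem_singleton] at he'
      rw [he']
      exact he
    · intro e' he' a hea
      rw [Finset.mem_singleton] at he'
      exact hne a (hea.trans he')
    · rw [Finset.card_singleton]
  obtain ⟨h1, h3, h4⟩ := hRS
  have hS : ∀ x : Fin m, S.Adj (Sum.inl (Sum.inl t)) (Sum.inl (Sum.inr x)) := by
    intro x
    have h5 : (glue (pen Q t m) (Sum.inl t) Y r).Adj (Sum.inl (Sum.inl t)) (Sum.inl (Sum.inr x)) :=
      (rfl : t = t)
    rw [← h1, sup_adj] at h5
    rcases h5 with h5 | h5
    · exact (key _ h5 (fun a ha => by simp at ha)).elim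
    · exact h5
  rcases hYR with ⟨x, hx⟩ | hn
  · have hxr : x ≠ r := fun h => (SimpleGraph.irrefl _) (h ▸ hx)
    rw [comap_adj, jmap_root, jmap_ne _ hxr] at hx
    exact key _ hx (fun a ha => by simp at ha)
  · have h6 : Near B ℓ 0 S (jmap (Sum.inl t : L ⊕ Fin m) r r) := by
      refine Near.ext (fun v => Pool.Agent.RS81.TwoConn.adj' hB v) (G := S.comap (jmap (Sum.inl t : L ⊕ Fin m) r))
        (jmap (Sum.inl t : L ⊕ Fin m) r) (jmap_injective _ r)
        (fun a b hab => hab) hn (Finset.univ.map ⟨fun x : Fin m => Sum.inl (Sum.inr x),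
          fun a b hab => Sum.inr_injective (Sum.inl_injective hab)⟩) ?_ ?_ ?_
      · intro e he
        rw [Finset.mem_map] at he
        obtain ⟨x, -, rfl⟩ := he
        rw [jmap_root]
        exact hS x
      · intro e he a hea
        rw [Finset.mem_map] at he
        obtain ⟨x, -, rfl⟩ := he
        by_cases har : a = r
        · rw [har, jmap_root] at hea
          exact absurd (Sum.inl_injective hea) (by simp)
        · rw [jmap_ne _ har] at hea
          exact absurd hea (by simp)
      · rw [Finset.card_map, Finset.card_univ, Fintype.card_fin]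
        omega
    exact h4 h6.zero

theorem red_step (hg : GluStmt) {V : Type} [Finite V] {B : SimpleGraph V} {ℓ : V → ℕ} {m k : ℕ}
    (hB : TwoConn B) (hm : ∀ v, ℓ v ≤ m) (hk : 1 ≤ k) (hp : PClosed (pendL B ℓ))
    {Y0 : Type} [Finite Y0] {Y : SimpleGraph Y0} {r : Y0}
    (hY1 : ∀ R S, Good (pendL B ℓ) Y R S →
        ((∃ x, R.Adj r x) ∨ Near B ℓ m S r) ∧ ((∃ x, S.Adj r x) ∨ Near B ℓ m R r))
    (hY : ∃ R S, Good (pendL B ℓ) Y R S ∧ (R.neighborSet r).ncard = 1 ∧
        ¬ Near B ℓ m R r ∧ ¬ Near B ℓ m S r)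
    (h : FF B ℓ (k + 1)) : FF B ℓ k := by
  classical
  obtain ⟨L, hL, Q, t, hQ, hQ2⟩ := h
  by_cases hff : ∀ R S, Good (pendL B ℓ) (pen Q t m) R S →
      Near B ℓ k R (Sum.inl t) ∨ Near B ℓ k S (Sum.inl t)
  · exact ⟨L ⊕ Fin m, inferInstance, pen Q t m, Sum.inl t, inC_pen hp t hQ m, hff⟩
  · push Not at hff
    obtain ⟨R, S, hRS, h1, h2⟩ := hff
    have h3 := good_comap hRS (j := (Sum.inl : L → L ⊕ Fin m)) Sum.inl_injective
    rw [pen_comap] at h3
    have hin : InC (pendL B ℓ) (glue (pen Q t m) (Sum.inl t) Y r) := by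
      rcases hQ2 _ _ h3 with h4 | h4
      · exact red_glue hg hB hm hk hY hRS h1 h4
      · exact red_glue hg hB hm hk hY (good_swap hRS) h2 h4
    refine ⟨(L ⊕ Fin m) ⊕ Y0, inferInstance, _, Sum.inl (Sum.inl t), hin, ?_⟩
    intro R S hRS
    have h4 := good_comap hRS (j := (Sum.inl : L ⊕ Fin m → (L ⊕ Fin m) ⊕ Y0)) Sum.inl_injective
    rw [glue_comap_inl] at h4
    have h5 := good_comap h4 (j := (Sum.inl : L → L ⊕ Fin m)) Sum.inl_injective
    rw [pen_comap] at h5
    have h6 := good_comap hRS (jmap_injective (Sum.inl t : L ⊕ Fin m) r)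
    rw [glue_comap_jmap] at h6
    obtain ⟨y1, y2⟩ := hY1 _ _ h6
    rcases hQ2 _ _ h5 with h7 | h7
    · exact Or.inl (red_near hB hRS y1 h7)
    · exact Or.inr (red_near hB (good_swap hRS) y2 h7)

theorem red_final {V : Type} [Finite V] {B : SimpleGraph V} {ℓ : V → ℕ} {m : ℕ}
    (hB : TwoConn B) (hm : ∀ v, ℓ v ≤ m) {L : Type} [Finite L]
    {Q : SimpleGraph L} {t : L} {R S : SimpleGraph (L ⊕ Fin m)}
    (hRS : Good (pendL B ℓ) (pen Q t m) R S) (h : Near B ℓ 1 (R.comap Sum.inl) t) :
    Near B ℓ 1 R (Sum.inl t) ∧ ¬ Near B ℓ m S (Sum.inl t) := by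
  classical
  refine ⟨h.map Sum.inl Sum.inl_injective (fun a b hab => hab), ?_⟩
  refine not_near_pen hB hm le_rfl hRS ?_
  intro x hx
  have h6 : Near B ℓ 0 R (Sum.inl t) := by
    refine Near.ext (fun v => Pool.Agent.RS81.TwoConn.adj' hB v) (G := R.comap Sum.inl) Sum.inl Sum.inl_injective
      (fun a b hab => hab) h {Sum.inr x} ?_ ?_ ?_
    · intro e he
      rw [Finset.mem_singleton] at he
      rw [he]
      exact hx
    · intro e he a hea
      rw [Finset.mem_singleton] at he
      rw [he] at hea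
      simp at hea
    · rw [Finset.card_singleton]
  exact hRS.2.1 h6.zero

theorem red (hf : FfmStmt) (hl : LftStmt) (hg : GluStmt) : RedStmt := by
  intro V _ B ℓ m hB hc hm hpos hne hp
  have hm1 : 1 ≤ m := by
    obtain ⟨v, hv⟩ := hpos
    have := hm v
    omega
  obtain ⟨Y0, hY0, Y, r, hY1, hY⟩ := hl V B ℓ m hB hc hm
  have hFm : FF B ℓ m := hf V B ℓ m hB hc hm hne
  have hall : ∀ j, j ≤ m - 1 → FF B ℓ (m - j) := by
    intro j
    induction j with
    | zero => intro _; exact hFm
    | succ j ih =>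
      intro hj
      have h1 := ih (by omega)
      have h2 : m - j = (m - (j + 1)) + 1 := by omega
      rw [h2] at h1
      exact red_step hg hB hm (by omega) hp hY1 hY h1
  have hF1 : FF B ℓ 1 := by
    have h1 := hall (m - 1) le_rfl
    have h2 : m - (m - 1) = 1 := by omega
    rwa [h2] at h1
  obtain ⟨L, hL, Q, t, hQ, hQ2⟩ := hF1
  refine ⟨L ⊕ Fin m, inferInstance, pen Q t m, Sum.inl t, inC_pen hp t hQ m, ?_⟩
  intro R S hRS
  have h3 := good_comap hRS (j := (Sum.inl : L → L ⊕ Fin m)) Sum.inl_injective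
  rw [pen_comap] at h3
  rcases hQ2 _ _ h3 with h4 | h4
  · exact Or.inl (red_final hB hm hRS h4)
  · exact Or.inr (red_final hB hm (good_swap hRS) h4)

end Pool.Agent.RS81.H25
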